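import Pool.Agent.K3h5.FF.Stm

/-!
# Project FF (helper5, MP_264509_pr), brick BALL: bisimilar forests have isomorphic balls (helper62)
-/

set_option autoImplicit false

namespace Pool.Agent.K3h62.FF

open Pool.Agent.K3h5.FF

variable {V₁ V₂ M₁ M₂ : Type}

/-- `v₁`, `v₂` are descendants of `z₁`, `z₂`, by `d` steps with corresponding marks -/
def D (par₁ : V₁ → Option V₁) (par₂ : V₂ → Option V₂) (mark₁ : V₁ → M₁) (mark₂ : V₂ → M₂)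
    (E : M₁ → M₂ → Prop) (z₁ : V₁) (z₂ : V₂) : ℕ → V₁ → V₂ → Prop
  | 0, v₁, v₂ => v₁ = z₁ ∧ v₂ = z₂
  | d + 1, v₁, v₂ => ∃ w₁ w₂, par₁ v₁ = some w₁ ∧ par₂ v₂ = some w₂ ∧ E (mark₁ v₁) (mark₂ v₂) ∧
      D par₁ par₂ mark₁ mark₂ E z₁ z₂ d w₁ w₂

/-- the hypotheses on the marks and on the ancestors `a₁ i`, `a₂ i` of the roots -/
structure Bis (par₁ : V₁ → Option V₁) (par₂ : V₂ → Option V₂) (mark₁ : V₁ → M₁)
    (mark₂ : V₂ → M₂) (E : M₁ → M₂ → Prop) (a₁ : ℕ → V₁) (a₂ : ℕ → V₂) (r : ℕ) : Prop where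
  inj₁ : ∀ v w w', par₁ w = some v → par₁ w' = some v → mark₁ w = mark₁ w' → w = w'
  inj₂ : ∀ v w w', par₂ w = some v → par₂ w' = some v → mark₂ w = mark₂ w' → w = w'
  hE : ∀ a b a' b', E a b → E a' b' → (a = a' ↔ b = b')
  st₁ : ∀ i, i < 2 * r + 3 → par₁ (a₁ i) = some (a₁ (i + 1))
  st₂ : ∀ i, i < 2 * r + 3 → par₂ (a₂ i) = some (a₂ (i + 1))
  sE : ∀ i, i < 2 * r + 3 → E (mark₁ (a₁ i)) (mark₂ (a₂ i))
  d₁ : ∀ i j, i ≤ 2 * r + 2 → j ≤ 2 * r + 2 → a₁ i = a₁ j → i = j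
  d₂ : ∀ i j, i ≤ 2 * r + 2 → j ≤ 2 * r + 2 → a₂ i = a₂ j → i = j

section

variable {par₁ : V₁ → Option V₁} {par₂ : V₂ → Option V₂} {mark₁ : V₁ → M₁} {mark₂ : V₂ → M₂}
  {E : M₁ → M₂ → Prop} {a₁ : ℕ → V₁} {a₂ : ℕ → V₂} {r : ℕ}

theorem Bis.symm (h : Bis par₁ par₂ mark₁ mark₂ E a₁ a₂ r) :
    Bis par₂ par₁ mark₂ mark₁ (fun b a => E a b) a₂ a₁ r where
  inj₁ := h.inj₂
  inj₂ := h.inj₁
  hE := fun a b a' b' h1 h2 => (h.hE b a b' a' h1 h2).symm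
  st₁ := h.st₂
  st₂ := h.st₁
  sE := h.sE
  d₁ := h.d₂
  d₂ := h.d₁

theorem D_symm {z₁ : V₁} {z₂ : V₂} : ∀ (d : ℕ) (v₁ : V₁) (v₂ : V₂),
    D par₁ par₂ mark₁ mark₂ E z₁ z₂ d v₁ v₂ →
    D par₂ par₁ mark₂ mark₁ (fun b a => E a b) z₂ z₁ d v₂ v₁
  | 0, _, _, h => ⟨h.2, h.1⟩
  | d + 1, _, _, ⟨w₁, w₂, h1, h2, h3, h4⟩ => ⟨w₂, w₁, h2, h1, h3, D_symm d w₁ w₂ h4⟩

theorem D_fun (h : Bis par₁ par₂ mark₁ mark₂ E a₁ a₂ r) {z₁ : V₁} {z₂ : V₂} :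
    ∀ (d : ℕ) (v₁ : V₁) (v₂ v₂' : V₂), D par₁ par₂ mark₁ mark₂ E z₁ z₂ d v₁ v₂ →
    D par₁ par₂ mark₁ mark₂ E z₁ z₂ d v₁ v₂' → v₂ = v₂'
  | 0, _, _, _, h1, h2 => h1.2.trans h2.2.symm
  | d + 1, v₁, v₂, v₂', ⟨w₁, w₂, h1, h2, h3, h4⟩, ⟨w₁', w₂', h1', h2', h3', h4'⟩ => by
    obtain rfl : w₁ = w₁' := Option.some.inj (h1.symm.trans h1')
    obtain rfl : w₂ = w₂' := D_fun h d w₁ w₂ w₂' h4 h4'
    exact h.inj₂ w₂ v₂ v₂' h2 h2' ((h.hE _ _ _ _ h3 h3').1 rfl)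

theorem D_top {z₁ z₁' : V₁} {z₂ z₂' : V₂} :
    ∀ (d : ℕ) (v₁ : V₁) (v₂ v₂' : V₂), D par₁ par₂ mark₁ mark₂ E z₁ z₂ d v₁ v₂ →
    D par₁ par₂ mark₁ mark₂ E z₁' z₂' d v₁ v₂' → z₁ = z₁'
  | 0, _, _, _, h1, h2 => h1.1.symm.trans h2.1
  | d + 1, v₁, v₂, v₂', ⟨w₁, w₂, h1, h2, h3, h4⟩, ⟨w₁', w₂', h1', h2', h3', h4'⟩ => by
    obtain rfl : w₁ = w₁' := Option.some.inj (h1.symm.trans h1')
    exact D_top d w₁ w₂ w₂' h4 h4'

theorem D_append {z₁ z₁' : V₁} {z₂ z₂' : V₂} {k : ℕ}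
    (hk : D par₁ par₂ mark₁ mark₂ E z₁' z₂' k z₁ z₂) :
    ∀ (d : ℕ) (v₁ : V₁) (v₂ : V₂), D par₁ par₂ mark₁ mark₂ E z₁ z₂ d v₁ v₂ →
    D par₁ par₂ mark₁ mark₂ E z₁' z₂' (d + k) v₁ v₂
  | 0, v₁, v₂, h1 => by
    obtain ⟨rfl, rfl⟩ := h1
    rw [zero_add]
    exact hk
  | d + 1, v₁, v₂, ⟨w₁, w₂, h1, h2, h3, h4⟩ => by
    rw [show d + 1 + k = (d + k) + 1 by ring]
    exact ⟨w₁, w₂, h1, h2, h3, D_append hk d w₁ w₂ h4⟩

theorem D_chain (h : Bis par₁ par₂ mark₁ mark₂ E a₁ a₂ r) :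
    ∀ (k u : ℕ), u + k ≤ 2 * r + 3 →
    D par₁ par₂ mark₁ mark₂ E (a₁ (u + k)) (a₂ (u + k)) k (a₁ u) (a₂ u)
  | 0, u, _ => ⟨rfl, rfl⟩
  | k + 1, u, hu => by
    refine ⟨a₁ (u + 1), a₂ (u + 1), h.st₁ u (by omega), h.st₂ u (by omega), h.sE u (by omega), ?_⟩
    rw [show u + (k + 1) = (u + 1) + k by ring]
    exact D_chain h k (u + 1) (by omega)

/-- uniqueness of the codes -/
theorem code_fun' (h : Bis par₁ par₂ mark₁ mark₂ E a₁ a₂ r) {u d u' d' : ℕ} {v₁ : V₁}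
    {v₂ v₂' : V₂} (hu : u + d ≤ r + 1) (hu' : u' + d' ≤ r + 1) (hd : d ≤ d')
    (h1 : D par₁ par₂ mark₁ mark₂ E (a₁ u) (a₂ u) d v₁ v₂)
    (h2 : D par₁ par₂ mark₁ mark₂ E (a₁ u') (a₂ u') d' v₁ v₂') : v₂ = v₂' := by
  obtain ⟨k, rfl⟩ := Nat.exists_eq_add_of_le hd
  have h3 := D_append (D_chain h k u (by omega)) d v₁ v₂ h1
  have h4 := D_top _ _ _ _ h3 h2
  obtain rfl := h.d₁ _ _ (by omega) (by omega) h4
  exact D_fun h _ _ _ _ h3 h2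

theorem code_fun (h : Bis par₁ par₂ mark₁ mark₂ E a₁ a₂ r) {u d u' d' : ℕ} {v₁ : V₁}
    {v₂ v₂' : V₂} (hu : u + d ≤ r + 1) (hu' : u' + d' ≤ r + 1)
    (h1 : D par₁ par₂ mark₁ mark₂ E (a₁ u) (a₂ u) d v₁ v₂)
    (h2 : D par₁ par₂ mark₁ mark₂ E (a₁ u') (a₂ u') d' v₁ v₂') : v₂ = v₂' := by
  rcases le_total d d' with hd | hd
  · exact code_fun' h hu hu' hd h1 h2
  · exact (code_fun' h hu' hu hd h2 h1).symm

/-- the correspondence of the balls -/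
def Phi (par₁ : V₁ → Option V₁) (par₂ : V₂ → Option V₂) (mark₁ : V₁ → M₁) (mark₂ : V₂ → M₂)
    (E : M₁ → M₂ → Prop) (a₁ : ℕ → V₁) (a₂ : ℕ → V₂) (r : ℕ) (v₁ : V₁) (v₂ : V₂) : Prop :=
  ∃ u d, u + d ≤ r ∧ D par₁ par₂ mark₁ mark₂ E (a₁ u) (a₂ u) d v₁ v₂

theorem Phi_symm {v₁ : V₁} {v₂ : V₂} (h : Phi par₁ par₂ mark₁ mark₂ E a₁ a₂ r v₁ v₂) :
    Phi par₂ par₁ mark₂ mark₁ (fun b a => E a b) a₂ a₁ r v₂ v₁ := by
  obtain ⟨u, d, h1, h2⟩ := h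
  exact ⟨u, d, h1, D_symm _ _ _ h2⟩

theorem Phi_fun (h : Bis par₁ par₂ mark₁ mark₂ E a₁ a₂ r) {v₁ : V₁} {v₂ v₂' : V₂}
    (h1 : Phi par₁ par₂ mark₁ mark₂ E a₁ a₂ r v₁ v₂)
    (h2 : Phi par₁ par₂ mark₁ mark₂ E a₁ a₂ r v₁ v₂') : v₂ = v₂' := by
  obtain ⟨u, d, h3, h4⟩ := h1
  obtain ⟨u', d', h3', h4'⟩ := h2
  exact code_fun h (by omega) (by omega) h4 h4'

theorem Phi_par (h : Bis par₁ par₂ mark₁ mark₂ E a₁ a₂ r) {v₁ w₁ : V₁} {v₂ w₂ : V₂}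
    (h1 : Phi par₁ par₂ mark₁ mark₂ E a₁ a₂ r v₁ v₂)
    (h2 : Phi par₁ par₂ mark₁ mark₂ E a₁ a₂ r w₁ w₂) (hp : par₁ v₁ = some w₁) :
    par₂ v₂ = some w₂ := by
  obtain ⟨u, d, h3, h4⟩ := h1
  obtain ⟨u', d', h3', h4'⟩ := h2
  cases d with
  | zero =>
    obtain ⟨rfl, rfl⟩ := h4
    have h5 := h.st₁ u (by omega)
    obtain rfl : w₁ = a₁ (u + 1) := Option.some.inj (hp.symm.trans h5)
    have h6 := code_fun h (u := u + 1) (d := 0) (v₂ := a₂ (u + 1)) (by omega) (by omega)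
      ⟨rfl, rfl⟩ h4'
    rw [← h6]
    exact h.st₂ u (by omega)
  | succ d =>
    obtain ⟨x₁, x₂, e1, e2, e3, e4⟩ := h4
    obtain rfl : w₁ = x₁ := Option.some.inj (hp.symm.trans e1)
    rw [e2, code_fun h (by omega) (by omega) e4 h4']

variable {G₁ : SimpleGraph V₁} {R : ℕ → V₁ → V₂ → Prop}

/-- every vertex at the end of a walk has a code -/
theorem walk_code (h : Bis par₁ par₂ mark₁ mark₂ E a₁ a₂ r)
    (hG : ∀ v w, G₁.Adj v w ↔ par₁ v = some w ∨ par₁ w = some v)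
    (hup : ∀ s v₁ v₂, R (s + 1) v₁ v₂ → ∃ w₁ w₂, par₁ v₁ = some w₁ ∧ par₂ v₂ = some w₂ ∧
      E (mark₁ v₁) (mark₂ v₂) ∧ R s w₁ w₂)
    (hdn : ∀ s v₁ v₂ w₁, R (s + 1) v₁ v₂ → par₁ w₁ = some v₁ → ∃ w₂, par₂ w₂ = some v₂ ∧
      E (mark₁ w₁) (mark₂ w₂) ∧ R s w₁ w₂)
    (h0 : R (2 * r + 3) (a₁ 0) (a₂ 0)) :
    ∀ (k : ℕ) (v₁ : V₁) (q : G₁.Walk v₁ (a₁ 0)), q.length = k → k ≤ r →
    ∃ v₂ u d, u + d ≤ k ∧ D par₁ par₂ mark₁ mark₂ E (a₁ u) (a₂ u) d v₁ v₂ ∧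
      R (2 * r + 3 - k) v₁ v₂ := by
  intro k
  induction k with
  | zero =>
    intro v₁ q hq _
    have := SimpleGraph.Walk.eq_of_length_eq_zero hq
    subst this
    exact ⟨a₂ 0, 0, 0, le_refl _, ⟨rfl, rfl⟩, h0⟩
  | succ k ih =>
    intro v₁ q hq hk
    obtain ⟨w₁, hadj, q', hq'⟩ : ∃ w₁, G₁.Adj v₁ w₁ ∧ ∃ q' : G₁.Walk w₁ (a₁ 0), q'.length = k := by
      revert hq
      generalize a₁ 0 = b at q
      intro hq
      cases q with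
      | nil => simp at hq
      | cons hadj q' => exact ⟨_, hadj, q', by simpa using hq⟩
    obtain ⟨w₂, u, d, h1, h2, h3⟩ := ih w₁ q' hq' (by omega)
    rw [show 2 * r + 3 - k = (2 * r + 3 - (k + 1)) + 1 by omega] at h3
    rcases (hG _ _).1 hadj with hp | hp
    · -- `v₁` is a child of `w₁`
      obtain ⟨v₂, e1, e2, e3⟩ := hdn _ _ _ _ h3 hp
      exact ⟨v₂, u, d + 1, by omega, ⟨w₁, w₂, hp, e1, e2, h2⟩, e3⟩
    · -- `v₁` is the parent of `w₁`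
      obtain ⟨x₁, v₂, e1, e2, e3, e4⟩ := hup _ _ _ h3
      obtain rfl : x₁ = v₁ := Option.some.inj (e1.symm.trans hp)
      cases d with
      | zero =>
        obtain ⟨rfl, rfl⟩ := h2
        have e5 := h.st₁ u (by omega)
        have e6 := h.st₂ u (by omega)
        obtain rfl := Option.some.inj (e1.symm.trans e5)
        obtain rfl := Option.some.inj (e2.symm.trans e6)
        exact ⟨a₂ (u + 1), u + 1, 0, by omega, ⟨rfl, rfl⟩, e4⟩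
      | succ d =>
        obtain ⟨y₁, y₂, e5, e6, e7, e8⟩ := h2
        obtain rfl := Option.some.inj (e1.symm.trans e5)
        obtain rfl := Option.some.inj (e2.symm.trans e6)
        exact ⟨v₂, u, d, by omega, e8, e4⟩

/-- a code gives a walk -/
theorem code_walk (h : Bis par₁ par₂ mark₁ mark₂ E a₁ a₂ r)
    (hG : ∀ v w, G₁.Adj v w ↔ par₁ v = some w ∨ par₁ w = some v) :
    ∀ (d u : ℕ) (v₁ : V₁) (v₂ : V₂), u + d ≤ r → D par₁ par₂ mark₁ mark₂ E (a₁ u) (a₂ u) d v₁ v₂ →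
    ∃ q : G₁.Walk v₁ (a₁ 0), q.length = u + d := by
  intro d
  induction d with
  | zero =>
    intro u
    induction u with
    | zero =>
      rintro v₁ v₂ _ ⟨rfl, rfl⟩
      exact ⟨SimpleGraph.Walk.nil, rfl⟩
    | succ u ih =>
      rintro v₁ v₂ hu ⟨rfl, rfl⟩
      obtain ⟨q, hq⟩ := ih (a₁ u) (a₂ u) (by omega) ⟨rfl, rfl⟩
      have hadj : G₁.Adj (a₁ (u + 1)) (a₁ u) := (hG _ _).2 (Or.inr (h.st₁ u (by omega)))
      exact ⟨SimpleGraph.Walk.cons hadj q, by rw [SimpleGraph.Walk.length_cons, hq]⟩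
  | succ d ih =>
    rintro u v₁ v₂ hu ⟨w₁, w₂, h1, h2, h3, h4⟩
    obtain ⟨q, hq⟩ := ih u w₁ w₂ (by omega) h4
    have hadj : G₁.Adj v₁ w₁ := (hG _ _).2 (Or.inl h1)
    exact ⟨SimpleGraph.Walk.cons hadj q, by rw [SimpleGraph.Walk.length_cons, hq]; ring⟩

theorem mem_ball {V : Type} {G : SimpleGraph V} {o v : V} {r : ℕ} :
    v ∈ ballSet G o r ↔ ∃ q : G.Walk v o, q.length ≤ r := by
  constructor
  · rintro ⟨p, hp⟩
    exact ⟨p.reverse, by rwa [SimpleGraph.Walk.length_reverse]⟩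
  · rintro ⟨p, hp⟩
    exact ⟨p.reverse, by rwa [SimpleGraph.Walk.length_reverse]⟩

end

/-- **Brick BALL.** -/
theorem t_BALL : S_BALL := by
  classical
  intro V₁ V₂ M₁ M₂ G₁ G₂ par₁ par₂ mark₁ mark₂ hG₁ hG₂ inj₁ inj₂ E hE R hup hdn₁ hdn₂ r o₁ o₂ h0
    hd₁ hd₂
  let a₁ : ℕ → V₁ := fun i => (fun v => (par₁ v).getD v)^[i] o₁
  let a₂ : ℕ → V₂ := fun i => (fun v => (par₂ v).getD v)^[i] o₂
  have hs₁ : ∀ i, a₁ (i + 1) = (par₁ (a₁ i)).getD (a₁ i) := fun i =>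
    Function.iterate_succ_apply' _ _ _
  have hs₂ : ∀ i, a₂ (i + 1) = (par₂ (a₂ i)).getD (a₂ i) := fun i =>
    Function.iterate_succ_apply' _ _ _
  have hR : ∀ i, i ≤ 2 * r + 3 → R (2 * r + 3 - i) (a₁ i) (a₂ i) := by
    intro i
    induction i with
    | zero => intro _; exact h0
    | succ i ih =>
      intro hi
      have h1 := ih (by omega)
      rw [show 2 * r + 3 - i = (2 * r + 3 - (i + 1)) + 1 by omega] at h1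
      obtain ⟨w₁, w₂, e1, e2, e3, e4⟩ := hup _ _ _ h1
      rw [hs₁, hs₂, e1, e2]
      exact e4
  have hst : ∀ i, i < 2 * r + 3 → par₁ (a₁ i) = some (a₁ (i + 1)) ∧
      par₂ (a₂ i) = some (a₂ (i + 1)) ∧ E (mark₁ (a₁ i)) (mark₂ (a₂ i)) := by
    intro i hi
    have h1 := hR i hi.le
    rw [show 2 * r + 3 - i = (2 * r + 3 - (i + 1)) + 1 by omega] at h1
    obtain ⟨w₁, w₂, e1, e2, e3, e4⟩ := hup _ _ _ h1
    rw [hs₁, hs₂, e1, e2]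
    exact ⟨rfl, rfl, e3⟩
  have hb₁ : ∀ i, i ≤ 2 * r + 3 → (fun v : Option V₁ => v.bind par₁)^[i] (some o₁) =
      some (a₁ i) := by
    intro i
    induction i with
    | zero => intro _; rfl
    | succ i ih =>
      intro hi
      rw [Function.iterate_succ_apply', ih (by omega)]
      exact (hst i (by omega)).1
  have hb₂ : ∀ i, i ≤ 2 * r + 3 → (fun v : Option V₂ => v.bind par₂)^[i] (some o₂) =
      some (a₂ i) := by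
    intro i
    induction i with
    | zero => intro _; rfl
    | succ i ih =>
      intro hi
      rw [Function.iterate_succ_apply', ih (by omega)]
      exact (hst i (by omega)).2.1
  have hB : Bis par₁ par₂ mark₁ mark₂ E a₁ a₂ r := by
    refine ⟨inj₁, inj₂, hE, fun i hi => (hst i hi).1, fun i hi => (hst i hi).2.1,
      fun i hi => (hst i hi).2.2, ?_, ?_⟩
    · intro i j hi hj hij
      by_contra hne
      apply hd₁ i j hi hj hne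
      rw [hb₁ i (by omega), hb₁ j (by omega), hij]
    · intro i j hi hj hij
      by_contra hne
      apply hd₂ i j hi hj hne
      rw [hb₂ i (by omega), hb₂ j (by omega), hij]
  have tot₁ : ∀ v₁ ∈ ballSet G₁ o₁ r, ∃ v₂, Phi par₁ par₂ mark₁ mark₂ E a₁ a₂ r v₁ v₂ := by
    intro v₁ hv
    obtain ⟨q, hq⟩ := mem_ball.1 hv
    obtain ⟨v₂, u, d, h1, h2, -⟩ := walk_code hB hG₁ hup hdn₁ h0 q.length v₁ q rfl hq
    exact ⟨v₂, u, d, by omega, h2⟩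
  have tot₂ : ∀ v₂ ∈ ballSet G₂ o₂ r, ∃ v₁, Phi par₁ par₂ mark₁ mark₂ E a₁ a₂ r v₁ v₂ := by
    intro v₂ hv
    obtain ⟨q, hq⟩ := mem_ball.1 hv
    obtain ⟨v₁, u, d, h1, h2, -⟩ := walk_code (R := fun s b a => R s a b) hB.symm hG₂
      (fun s b a hs => by
        obtain ⟨w₁, w₂, e1, e2, e3, e4⟩ := hup s a b hs
        exact ⟨w₂, w₁, e2, e1, e3, e4⟩)
      (fun s b a w hs hw => by
        obtain ⟨w₁, e1, e2, e3⟩ := hdn₂ s a b w hs hw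
        exact ⟨w₁, e1, e2, e3⟩) h0 q.length v₂ q rfl hq
    exact ⟨v₁, Phi_symm (E := fun b a => E a b) ⟨u, d, by omega, h2⟩⟩
  have mem₁ : ∀ v₁ v₂, Phi par₁ par₂ mark₁ mark₂ E a₁ a₂ r v₁ v₂ → v₁ ∈ ballSet G₁ o₁ r := by
    rintro v₁ v₂ ⟨u, d, h1, h2⟩
    obtain ⟨q, hq⟩ := code_walk hB hG₁ d u v₁ v₂ h1 h2
    have hq' : q.length ≤ r := hq.trans_le h1
    exact mem_ball.2 ⟨q, hq'⟩
  have mem₂ : ∀ v₁ v₂, Phi par₁ par₂ mark₁ mark₂ E a₁ a₂ r v₁ v₂ → v₂ ∈ ballSet G₂ o₂ r := by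
    intro v₁ v₂ h
    obtain ⟨u, d, h1, h2⟩ := Phi_symm h
    obtain ⟨q, hq⟩ := code_walk hB.symm hG₂ d u v₂ v₁ h1 h2
    have hq' : q.length ≤ r := hq.trans_le h1
    exact mem_ball.2 ⟨q, hq'⟩
  choose f hf using fun v : ballSet G₁ o₁ r => tot₁ v v.2
  let F : ballSet G₁ o₁ r → ballSet G₂ o₂ r := fun v => ⟨f v, mem₂ _ _ (hf v)⟩
  have hF : Function.Bijective F := by
    constructor
    · intro v w hvw
      have h1 : f v = f w := congrArg Subtype.val hvw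
      apply Subtype.ext
      refine Phi_fun hB.symm (v₁ := f v) (Phi_symm (hf v)) ?_
      rw [h1]
      exact Phi_symm (hf w)
    · intro v
      obtain ⟨v₁, h1⟩ := tot₂ v v.2
      exact ⟨⟨v₁, mem₁ _ _ h1⟩, Subtype.ext (Phi_fun hB (hf _) h1)⟩
  have ho₁ : o₁ ∈ ballSet G₁ o₁ r := ⟨SimpleGraph.Walk.nil, Nat.zero_le _⟩
  have ho₂ : o₂ ∈ ballSet G₂ o₂ r := ⟨SimpleGraph.Walk.nil, Nat.zero_le _⟩
  refine ⟨⟨Equiv.ofBijective F hF, ?_⟩, ho₁, ho₂, ?_⟩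
  · intro v w
    have hv := hf v
    have hw := hf w
    simp only [SimpleGraph.comap_adj, Function.Embedding.subtype_apply, Equiv.ofBijective_apply,
      hG₁, hG₂]
    change (par₂ (f v) = some (f w) ∨ par₂ (f w) = some (f v)) ↔
      (par₁ (v : V₁) = some (w : V₁) ∨ par₁ (w : V₁) = some (v : V₁))
    constructor
    · rintro (h | h)
      · exact Or.inl (Phi_par hB.symm (Phi_symm hv) (Phi_symm hw) h)
      · exact Or.inr (Phi_par hB.symm (Phi_symm hw) (Phi_symm hv) h)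
    · rintro (h | h)
      · exact Or.inl (Phi_par hB hv hw h)
      · exact Or.inr (Phi_par hB hw hv h)
  · change F ⟨o₁, ho₁⟩ = ⟨o₂, ho₂⟩
    apply Subtype.ext
    exact Phi_fun hB (hf ⟨o₁, ho₁⟩) ⟨0, 0, by omega, rfl, rfl⟩

end Pool.Agent.K3h62.FF
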